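import Pool.Agent.Helper57.QZ.Stmts2

/-! # Row LG of the second sheet QZ (MP_818aa8_nt) -/

set_option autoImplicit false

namespace Pool.Agent.Helper57.QZ

open MeasureTheory Set Filter Topology

namespace S89G

theorem ci {f : ℝ → ℝ} (hf : Continuous f) : Integrable f circ := by
  unfold circ
  refine Integrable.smul_measure ?_ ?_
  · exact hf.integrableOn_Ioc
  · refine ENNReal.inv_ne_top.2 ?_
    rw [Ne, ENNReal.ofReal_eq_zero, not_le]
    positivity

theorem circ_int (f : ℝ → ℝ) :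
    ∫ φ, f φ ∂circ = (2 * Real.pi)⁻¹ * ∫ φ in (0)..(2 * Real.pi), f φ := by
  unfold circ
  rw [integral_smul_measure, intervalIntegral.integral_of_le (by positivity), smul_eq_mul,
    ENNReal.toReal_inv, ENNReal.toReal_ofReal (by positivity)]

theorem int_cos : ∫ φ, Real.cos φ ∂circ = 0 := by
  rw [circ_int, integral_cos, Real.sin_two_pi, Real.sin_zero]
  simp

theorem int_cos_sq : ∫ φ, Real.cos φ ^ 2 ∂circ = 1 / 2 := by
  rw [circ_int, integral_cos_sq, Real.sin_two_pi, Real.sin_zero]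
  have := Real.pi_pos
  field_simp
  ring

/-- a lower bound for the variance -/
theorem vv_ge (x : ℝ) (h0 : 0 ≤ x) (h1 : x ≤ 1) (hI : 0 < I0 x) :
    Real.exp (-1) / 2 / Real.exp 1 ≤ vv x := by
  set r := rr x with hr
  set N1 := ∫ φ, Real.cos φ * Real.exp (x * Real.cos φ) ∂circ with hN1
  set N2 := ∫ φ, Real.cos φ ^ 2 * Real.exp (x * Real.cos φ) ∂circ with hN2
  have hrI : N1 = r * I0 x := by
    rw [hr]
    unfold rr
    rw [div_mul_cancel₀ _ hI.ne']
  have h2 : vv x * I0 x = N2 - r ^ 2 * I0 x := by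
    unfold vv
    rw [sub_mul, div_mul_cancel₀ _ hI.ne']
  have h3 : ∫ φ, (Real.cos φ - r) ^ 2 * Real.exp (x * Real.cos φ) ∂circ =
      N2 - 2 * r * N1 + r ^ 2 * I0 x := by
    have h4 : (fun φ => (Real.cos φ - r) ^ 2 * Real.exp (x * Real.cos φ)) = fun φ =>
        (Real.cos φ ^ 2 * Real.exp (x * Real.cos φ) -
          (2 * r) * (Real.cos φ * Real.exp (x * Real.cos φ))) +
        r ^ 2 * Real.exp (x * Real.cos φ) := by
      funext φ
      ring
    rw [h4, integral_add (ci (by fun_prop)) (ci (by fun_prop)),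
      integral_sub (ci (by fun_prop)) (ci (by fun_prop)), integral_const_mul, integral_const_mul]
    rfl
  have h5 : ∫ φ, (Real.cos φ - r) ^ 2 * Real.exp (-1) ∂circ =
      (1 / 2 + r ^ 2) * Real.exp (-1) := by
    have h4 : (fun φ => (Real.cos φ - r) ^ 2 * Real.exp (-1)) = fun φ =>
        (Real.exp (-1) * Real.cos φ ^ 2 - (2 * r * Real.exp (-1)) * Real.cos φ) +
        r ^ 2 * Real.exp (-1) := by
      funext φ
      ring
    rw [h4, integral_add (ci (by fun_prop)) (ci (by fun_prop)),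
      integral_sub (ci (by fun_prop)) (ci (by fun_prop)), integral_const_mul, integral_const_mul,
      int_cos, int_cos_sq, integral_const, probReal_univ, one_smul]
    ring
  have h6 : ∫ φ, (Real.cos φ - r) ^ 2 * Real.exp (-1) ∂circ ≤
      ∫ φ, (Real.cos φ - r) ^ 2 * Real.exp (x * Real.cos φ) ∂circ := by
    refine integral_mono (ci (by fun_prop)) (ci (by fun_prop)) fun φ => ?_
    refine mul_le_mul_of_nonneg_left (Real.exp_le_exp.2 ?_) (sq_nonneg _)
    have := Real.neg_one_le_cos φ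
    nlinarith
  have h7 : I0 x ≤ Real.exp 1 := by
    have h8 : ∫ _φ, Real.exp 1 ∂circ = Real.exp 1 := by
      rw [integral_const, probReal_univ, one_smul]
    rw [← h8]
    unfold I0
    refine integral_mono (ci (by fun_prop)) (ci (by fun_prop)) fun φ => ?_
    refine Real.exp_le_exp.2 ?_
    have := Real.cos_le_one φ
    nlinarith
  have h9 : Real.exp (-1) / 2 ≤ vv x * I0 x := by
    rw [h3, h5, hrI] at h6
    have h10 : 0 ≤ r ^ 2 * Real.exp (-1) := by positivity
    nlinarith
  have h11 : 0 ≤ vv x := by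
    by_contra h
    have : vv x * I0 x < 0 := mul_neg_of_neg_of_pos (not_le.1 h) hI
    have := Real.exp_pos (-1)
    linarith
  rw [div_le_iff₀ (Real.exp_pos _)]
  exact h9.trans (mul_le_mul_of_nonneg_left h7 h11)

/-- `x rr x - ell x` is at least a positive constant for `x ≥ 1` -/
theorem f_ge (hV1 : ST_VM1) (hV3 : ST_VM3) (x : ℝ) (hx : 1 ≤ x) :
    Real.exp (-1) / 2 / Real.exp 1 / 2 ≤ x * rr x - ell x := by
  set c : ℝ := Real.exp (-1) / 2 / Real.exp 1 with hc
  have hder : ∀ t : ℝ, HasDerivAt (fun t => t * rr t - ell t) (t * vv t) t := by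
    intro t
    have h1 := ((hasDerivAt_id t).mul (hV1 t).2).sub (hV1 t).1
    refine h1.congr_deriv ?_
    simp
  have hcont : Continuous fun t => t * rr t - ell t :=
    continuous_iff_continuousAt.2 fun t => (hder t).continuousAt
  have hmono : MonotoneOn (fun t => t * rr t - ell t) (Ici 0) := by
    refine monotoneOn_of_deriv_nonneg (convex_Ici 0) hcont.continuousOn
      (fun t _ => (hder t).differentiableAt.differentiableWithinAt) fun t ht => ?_
    rw [interior_Ici] at ht
    rw [(hder t).deriv]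
    exact mul_nonneg (le_of_lt ht) (hV3.1 t).2.1
  have hder2 : ∀ t : ℝ, HasDerivAt (fun t => t * rr t - ell t - c / 2 * t ^ 2)
      (t * vv t - c / 2 * (2 * t)) t := by
    intro t
    have h1 := (hder t).sub (((hasDerivAt_pow 2 t).const_mul (c / 2)))
    refine h1.congr_deriv ?_
    simp
  have hcont2 : Continuous fun t => t * rr t - ell t - c / 2 * t ^ 2 :=
    continuous_iff_continuousAt.2 fun t => (hder2 t).continuousAt
  have hmono2 : MonotoneOn (fun t => t * rr t - ell t - c / 2 * t ^ 2) (Icc 0 1) := by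
    refine monotoneOn_of_deriv_nonneg (convex_Icc 0 1) hcont2.continuousOn
      (fun t _ => (hder2 t).differentiableAt.differentiableWithinAt) fun t ht => ?_
    rw [interior_Icc] at ht
    rw [(hder2 t).deriv]
    have h2 := vv_ge t ht.1.le ht.2.le (hV3.1 t).1
    rw [← hc] at h2
    have h3 := mul_le_mul_of_nonneg_left h2 ht.1.le
    linarith
  have h1 := hmono2 (left_mem_Icc.2 zero_le_one) (right_mem_Icc.2 zero_le_one) zero_le_one
  have h2 := hmono (mem_Ici.2 (zero_le_one (α := ℝ))) (mem_Ici.2 (zero_le_one.trans hx)) hx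
  have h3 := hV3.2 0 le_rfl
  simp only at h1 h2
  have h4 : ell 0 = 0 := le_antisymm h3.2.2.2.1 h3.2.2.1
  rw [h4] at h1
  norm_num at h1
  linarith

theorem pi_lb (z : ℝ) (hz : 10 ≤ z) :
    z / 4 / Real.log z ≤ (((Nat.primesBelow (⌊z⌋₊ + 1)).card : ℕ) : ℝ) := by
  have h1 := Chebyshev.pi_ge' (show (1 : ℝ) < z by linarith)
  have h2 : (Nat.primesBelow (⌊z⌋₊ + 1)).card = Nat.primeCounting ⌊z⌋₊ :=
    Nat.primesBelow_card_eq_primeCounting' _
  rw [h2]
  refine le_trans ?_ h1
  have hl : 0 < Real.log z := Real.log_pos (by linarith)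
  refine div_le_div_of_nonneg_right ?_ hl.le
  have h3 : Real.log (z + 2) = Real.log 8 + Real.log ((z + 2) / 8) := by
    rw [← Real.log_mul (by norm_num) (by positivity)]
    congr 1
    ring
  have h4 : Real.log ((z + 2) / 8) ≤ (z + 2) / 8 - 1 :=
    Real.log_le_sub_one_of_pos (by positivity)
  have h5 : Real.log 8 = 3 * Real.log 2 := by
    rw [show (8 : ℝ) = 2 ^ 3 by norm_num, Real.log_pow]
    norm_num
  have h6 := Real.log_two_gt_d9
  have h7 := Real.log_two_lt_d9
  rw [h3, h5]
  nlinarith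

end S89G

open S89G in
/-- row LG -/
theorem lg_of (hV1 : ST_VM1) (hV3 : ST_VM3) : ST_LG := by
  set c1 : ℝ := Real.exp (-1) / 2 / Real.exp 1 / 2 with hc1
  have hc1p : 0 < c1 := by positivity
  refine ⟨c1 / 4, 10, by norm_num, by positivity, fun y σ z hσ hz hzy => ?_⟩
  have hz0 : 0 < z := by linarith
  have h1 : Ly y σ (z ^ σ) = ∑ p ∈ Nat.primesBelow (y + 1),
      (z ^ σ * aa σ p * rr (z ^ σ * aa σ p) - ell (z ^ σ * aa σ p)) := by
    unfold Ly
    exact Finset.sum_coe_sort (Nat.primesBelow (y + 1))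
      (fun p : ℕ => z ^ σ * aa σ p * rr (z ^ σ * aa σ p) - ell (z ^ σ * aa σ p))
  have hsub : Nat.primesBelow (⌊z⌋₊ + 1) ⊆ Nat.primesBelow (y + 1) := by
    intro p hp
    rw [Nat.mem_primesBelow] at hp ⊢
    refine ⟨lt_of_lt_of_le hp.1 ?_, hp.2⟩
    have := Nat.floor_le_of_le hzy
    omega
  have h2 : ∑ p ∈ Nat.primesBelow (⌊z⌋₊ + 1), c1 ≤ Ly y σ (z ^ σ) := by
    rw [h1]
    refine le_trans (Finset.sum_le_sum fun p hp => ?_)
      (Finset.sum_le_sum_of_subset_of_nonneg hsub fun p _ _ => ?_)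
    · rw [Nat.mem_primesBelow] at hp
      have hp0 : (0 : ℝ) < p := by exact_mod_cast hp.2.pos
      have hpz : (p : ℝ) ≤ z := (Nat.le_floor_iff hz0.le).1 (by omega)
      apply f_ge hV1 hV3
      unfold aa
      rw [Real.rpow_neg hp0.le, ← div_eq_mul_inv, one_le_div (by positivity)]
      exact Real.rpow_le_rpow hp0.le hpz (by linarith [hσ.1])
    · have hx : 0 ≤ z ^ σ * aa σ p := by unfold aa; positivity
      have := (hV3.2 _ hx).2.2.2.2
      linarith
  rw [Finset.sum_const, nsmul_eq_mul] at h2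
  refine le_trans ?_ h2
  have h3 := pi_lb z hz
  calc c1 / 4 * z / Real.log z = z / 4 / Real.log z * c1 := by ring
    _ ≤ _ := mul_le_mul_of_nonneg_right h3 hc1p.le

end Pool.Agent.Helper57.QZ
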